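import Pool.Agent.Y782.UG.Stm

set_option autoImplicit false

/-! Project UG, job UG-MEAS: measurability of the types. -/

open MeasureTheory ProbabilityTheory Filter Topology
open scoped ENNReal BigOperators

namespace Pool.Agent.Y467.UG

open Pool.Agent.Y782.UG

/-- regularized square -/
noncomputable def sq (lam : ℝ) (n : ℕ) (x : ℝ) : ℝ := 1 / ((x - lam) ^ 2 + 1 / ((n : ℝ) + 1))

theorem den_pos (lam : ℝ) (n : ℕ) (x : ℝ) : 0 < (x - lam) ^ 2 + 1 / ((n : ℝ) + 1) := by
  have h : (0 : ℝ) < 1 / ((n : ℝ) + 1) := by positivity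
  have := sq_nonneg (x - lam)
  linarith

theorem sq_pos' (lam : ℝ) (n : ℕ) (x : ℝ) : 0 < sq lam n x :=
  div_pos one_pos (den_pos lam n x)

theorem sq_le (lam : ℝ) (n : ℕ) (x : ℝ) : sq lam n x ≤ (n : ℝ) + 1 := by
  unfold sq
  rw [div_le_iff₀ (den_pos lam n x)]
  have h : ((n : ℝ) + 1) * (1 / ((n : ℝ) + 1)) = 1 := by
    field_simp
  have h2 : 0 ≤ ((n : ℝ) + 1) * (x - lam) ^ 2 := by positivity
  nlinarith

theorem sq_cont (lam : ℝ) (n : ℕ) : Continuous (sq lam n) := by
  unfold sq
  exact continuous_const.div (by fun_prop) fun x => (den_pos lam n x).ne'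

theorem tendsto_den (lam x : ℝ) :
    Tendsto (fun n : ℕ => (x - lam) ^ 2 + 1 / ((n : ℝ) + 1)) atTop (𝓝 ((x - lam) ^ 2)) := by
  simpa using tendsto_const_nhds (x := (x - lam) ^ 2) |>.add
    (tendsto_one_div_add_atTop_nhds_zero_nat (𝕜 := ℝ))

/-- the extended inverse square -/
noncomputable def isq (lam x : ℝ) : ℝ≥0∞ := (ENNReal.ofReal ((x - lam) ^ 2))⁻¹

theorem isq_meas (lam : ℝ) : Measurable (isq lam) := by
  unfold isq
  fun_prop

theorem sup_sq (lam x : ℝ) : ⨆ n : ℕ, ENNReal.ofReal (sq lam n x) = isq lam x := by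
  have hmono : Monotone fun n : ℕ => ENNReal.ofReal (sq lam n x) := by
    intro a b hab
    refine ENNReal.ofReal_le_ofReal ?_
    unfold sq
    refine one_div_le_one_div_of_le (den_pos lam b x) ?_
    have : (1 : ℝ) / ((b : ℝ) + 1) ≤ 1 / ((a : ℝ) + 1) :=
      one_div_le_one_div_of_le (by positivity) (by exact_mod_cast Nat.succ_le_succ hab)
    linarith
  have h1 := tendsto_atTop_iSup hmono
  have h2 : Tendsto (fun n : ℕ => ENNReal.ofReal (sq lam n x)) atTop (𝓝 (isq lam x)) := by
    have h3 : ∀ n : ℕ, ENNReal.ofReal (sq lam n x) =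
        (ENNReal.ofReal ((x - lam) ^ 2 + 1 / ((n : ℝ) + 1)))⁻¹ := by
      intro n
      unfold sq
      rw [one_div, ENNReal.ofReal_inv_of_pos (den_pos lam n x)]
    simp only [h3, isq]
    exact ((ENNReal.continuous_ofReal.tendsto _).comp (tendsto_den lam x)).inv
  exact tendsto_nhds_unique h1 h2

theorem int_sq (lam : ℝ) (n : ℕ) (μ : Measure ℝ) [IsProbabilityMeasure μ] :
    Integrable (sq lam n) μ := by
  refine Integrable.of_bound (C := (n : ℝ) + 1) (sq_cont lam n).aestronglyMeasurable ?_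
  refine Eventually.of_forall fun x => ?_
  rw [Real.norm_eq_abs, abs_of_pos (sq_pos' lam n x)]
  exact sq_le lam n x

theorem lint_isq (lam : ℝ) (μ : Measure ℝ) [IsProbabilityMeasure μ] :
    ∫⁻ x, isq lam x ∂μ = ⨆ n : ℕ, ENNReal.ofReal (∫ x, sq lam n x ∂μ) := by
  simp_rw [← sup_sq lam]
  rw [lintegral_iSup]
  · congr 1
    funext n
    rw [ofReal_integral_eq_lintegral_ofReal (int_sq lam n μ)
      (Eventually.of_forall fun x => (sq_pos' lam n x).le)]
  · intro n
    exact ((sq_cont lam n).measurable).ennreal_ofReal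
  · intro a b hab x
    refine ENNReal.ofReal_le_ofReal ?_
    unfold sq
    refine one_div_le_one_div_of_le (den_pos lam b x) ?_
    have : (1 : ℝ) / ((b : ℝ) + 1) ≤ 1 / ((a : ℝ) + 1) :=
      one_div_le_one_div_of_le (by positivity) (by exact_mod_cast Nat.succ_le_succ hab)
    linarith

theorem ofReal_le_isq (lam x : ℝ) : ENNReal.ofReal (1 / (x - lam) ^ 2) ≤ isq lam x := by
  unfold isq
  rcases eq_or_ne (x - lam) 0 with h | h
  · simp [h]
  · rw [one_div, ENNReal.ofReal_inv_of_pos (by positivity)]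

theorem ofReal_eq_isq (lam x : ℝ) (h : x ≠ lam) :
    ENNReal.ofReal (1 / (x - lam) ^ 2) = isq lam x := by
  unfold isq
  have h : x - lam ≠ 0 := sub_ne_zero.mpr h
  rw [one_div, ENNReal.ofReal_inv_of_pos (by positivity)]

theorem meas_inv_sq (lam : ℝ) : Measurable fun x : ℝ => 1 / (x - lam) ^ 2 := by fun_prop

theorem isq_self (lam : ℝ) : isq lam lam = ⊤ := by
  simp [isq]

theorem fin_iff (lam : ℝ) (μ : Measure ℝ) [IsProbabilityMeasure μ] :
    fin lam μ ↔ ∫⁻ x, isq lam x ∂μ < ⊤ := by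
  constructor
  · rintro ⟨h0, hi⟩
    have h1 : ∫⁻ x, isq lam x ∂μ = ∫⁻ x, ENNReal.ofReal (1 / (x - lam) ^ 2) ∂μ := by
      refine lintegral_congr_ae ?_
      have : ∀ᵐ x ∂μ, x ≠ lam := by
        rw [ae_iff]
        simpa using h0
      filter_upwards [this] with x hx
      exact (ofReal_eq_isq lam x hx).symm
    rw [h1]
    exact hi.lintegral_lt_top
  · intro h
    refine ⟨?_, ?_⟩
    · have h1 := ae_lt_top (isq_meas lam) h.ne
      rw [ae_iff] at h1
      refine measure_mono_null ?_ h1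
      rintro x rfl
      simp [isq_self]
    · refine ⟨(meas_inv_sq lam).aestronglyMeasurable, ?_⟩
      refine lt_of_le_of_lt ?_ h
      refine lintegral_mono fun x => ?_
      refine le_trans (le_of_eq ?_) (ofReal_le_isq lam x)
      rw [Real.enorm_eq_ofReal (by positivity)]

theorem DD_eq (lam : ℝ) (μ : Measure ℝ) [IsProbabilityMeasure μ] (h : fin lam μ) :
    (∫⁻ x, isq lam x ∂μ).toReal = DD lam μ := by
  unfold DD
  rw [integral_eq_lintegral_of_nonneg_ae (Eventually.of_forall fun x => by positivity)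
    (meas_inv_sq lam).aestronglyMeasurable]
  congr 1
  refine lintegral_congr_ae ?_
  have : ∀ᵐ x ∂μ, x ≠ lam := by
    rw [ae_iff]
    simpa using h.1
  filter_upwards [this] with x hx
  exact (ofReal_eq_isq lam x hx).symm

theorem tendsto_mass (lam : ℝ) (μ : Measure ℝ) [IsProbabilityMeasure μ] :
    Tendsto (fun n : ℕ => ∫ x, 1 / (1 + (n : ℝ) * (x - lam) ^ 2) ∂μ) atTop
      (𝓝 (μ.real {lam})) := by
  have h : μ.real {lam} = ∫ x, ({lam} : Set ℝ).indicator (1 : ℝ → ℝ) x ∂μ :=
    (integral_indicator_one (measurableSet_singleton lam)).symm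
  rw [h]
  refine tendsto_integral_of_dominated_convergence (fun _ => (1 : ℝ)) ?_ (integrable_const _)
    ?_ ?_
  · intro n
    have : Measurable fun x : ℝ => 1 / (1 + (n : ℝ) * (x - lam) ^ 2) := by fun_prop
    exact this.aestronglyMeasurable
  · intro n
    refine Eventually.of_forall fun x => ?_
    have h1 : (1 : ℝ) ≤ 1 + (n : ℝ) * (x - lam) ^ 2 := by
      have : 0 ≤ (n : ℝ) * (x - lam) ^ 2 := by positivity
      linarith
    rw [Real.norm_eq_abs, abs_of_nonneg (by positivity)]
    rw [div_le_one (by linarith)]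
    exact h1
  · refine Eventually.of_forall fun x => ?_
    rcases eq_or_ne x lam with rfl | hx
    · simp
    · have hx' : x ∉ ({lam} : Set ℝ) := by simpa using hx
      rw [Set.indicator_of_notMem hx']
      have h2 : 0 < (x - lam) ^ 2 := by
        have := sub_ne_zero.mpr hx
        positivity
      have h3 : Tendsto (fun n : ℕ => 1 + (n : ℝ) * (x - lam) ^ 2) atTop atTop := by
        refine tendsto_atTop_add_const_left _ _ ?_
        exact (tendsto_natCast_atTop_atTop (R := ℝ)).atTop_mul_const h2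
      have h4 : (fun n : ℕ => 1 / (1 + (n : ℝ) * (x - lam) ^ 2)) =
          (fun n : ℕ => 1 + (n : ℝ) * (x - lam) ^ 2)⁻¹ := by
        funext n
        simp
      rw [h4]
      exact h3.inv_tendsto_atTop

/-- regularized inverse -/
noncomputable def rg (lam : ℝ) (n : ℕ) (x : ℝ) : ℝ :=
  (x - lam) / ((x - lam) ^ 2 + 1 / ((n : ℝ) + 1))

theorem rg_cont (lam : ℝ) (n : ℕ) : Continuous (rg lam n) := by
  unfold rg
  exact Continuous.div (by fun_prop) (by fun_prop) fun x => (den_pos lam n x).ne'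

theorem abs_le_one_add_sq (y : ℝ) : |y| ≤ 1 + y ^ 2 := by
  rw [abs_le]
  constructor <;> nlinarith [sq_nonneg (y - 1), sq_nonneg (y + 1)]

theorem rg_bd (lam : ℝ) (n : ℕ) (x : ℝ) : |rg lam n x| ≤ (n : ℝ) + 1 := by
  unfold rg
  rw [abs_div, abs_of_pos (den_pos lam n x), div_le_iff₀ (den_pos lam n x)]
  have h : ((n : ℝ) + 1) * (1 / ((n : ℝ) + 1)) = 1 := by
    field_simp
  have h2 : 0 ≤ (n : ℝ) * (x - lam) ^ 2 := by positivity
  have h3 := abs_le_one_add_sq (x - lam)
  nlinarith

theorem rg_bd' (lam : ℝ) (n : ℕ) (x : ℝ) : |rg lam n x| ≤ 1 + 1 / (x - lam) ^ 2 := by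
  unfold rg
  rcases eq_or_ne (x - lam) 0 with h | h
  · simp [h]
  · have h0 : 0 < (x - lam) ^ 2 := by positivity
    have hd : (x - lam) ^ 2 ≤ (x - lam) ^ 2 + 1 / ((n : ℝ) + 1) := by
      have : (0 : ℝ) < 1 / ((n : ℝ) + 1) := by positivity
      linarith
    rw [abs_div, abs_of_pos (den_pos lam n x)]
    calc |x - lam| / ((x - lam) ^ 2 + 1 / ((n : ℝ) + 1))
        ≤ |x - lam| / (x - lam) ^ 2 :=
          div_le_div_of_nonneg_left (abs_nonneg _) h0 hd
      _ ≤ (1 + (x - lam) ^ 2) / (x - lam) ^ 2 :=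
          div_le_div_of_nonneg_right (abs_le_one_add_sq _) h0.le
      _ = 1 + 1 / (x - lam) ^ 2 := by field_simp; ring

theorem tendsto_rr (lam : ℝ) (μ : Measure ℝ) [IsProbabilityMeasure μ] (h : fin lam μ) :
    Tendsto (fun n : ℕ => ∫ x, rg lam n x ∂μ) atTop (𝓝 (rr lam μ)) := by
  unfold rr
  refine tendsto_integral_of_dominated_convergence (fun x => 1 + 1 / (x - lam) ^ 2) ?_
    ((integrable_const _).add h.2) ?_ ?_
  · intro n
    exact (rg_cont lam n).aestronglyMeasurable
  · intro n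
    exact Eventually.of_forall fun x => rg_bd' lam n x
  · refine Eventually.of_forall fun x => ?_
    rcases eq_or_ne (x - lam) 0 with h | h
    · simp [rg, h]
    · have h0 : (x - lam) ^ 2 ≠ 0 := by positivity
      have h1 : 1 / (x - lam) = (x - lam) / (x - lam) ^ 2 := by field_simp
      rw [h1]
      exact (tendsto_const_nhds).div (tendsto_den lam x) h0

theorem meas : S_MEAS := by
  intro Ω _ μ hμ hm lam
  have hL : Measurable fun t => ∫⁻ x, isq lam x ∂(μ t) := by
    have h1 : (fun t => ∫⁻ x, isq lam x ∂(μ t)) =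
        fun t => ⨆ n : ℕ, ENNReal.ofReal (∫ x, sq lam n x ∂(μ t)) := by
      funext t
      have := hμ t
      exact lint_isq lam (μ t)
    rw [h1]
    refine Measurable.iSup fun n => ?_
    refine (hm (sq lam n) (sq_cont lam n) ⟨(n : ℝ) + 1, fun x => ?_⟩).ennreal_ofReal
    rw [abs_of_pos (sq_pos' lam n x)]
    exact sq_le lam n x
  have hS : MeasurableSet {t | fin lam (μ t)} := by
    have h1 : {t | fin lam (μ t)} = (fun t => ∫⁻ x, isq lam x ∂(μ t)) ⁻¹' Set.Iio ⊤ := by
      ext t
      have := hμ t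
      exact fin_iff lam (μ t)
    rw [h1]
    exact hL measurableSet_Iio
  refine ⟨?_, hS, ?_, ?_⟩
  · refine measurable_of_tendsto_metrizable (f := fun (n : ℕ) t =>
      ∫ x, 1 / (1 + (n : ℝ) * (x - lam) ^ 2) ∂(μ t)) (fun n => ?_) ?_
    · have hp : ∀ x : ℝ, (1 : ℝ) ≤ 1 + (n : ℝ) * (x - lam) ^ 2 := by
        intro x
        have : 0 ≤ (n : ℝ) * (x - lam) ^ 2 := by positivity
        linarith
      refine hm _ (continuous_const.div (by fun_prop) fun x => ?_) ⟨1, fun x => ?_⟩
      · have := hp x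
        linarith
      · rw [abs_of_nonneg (by positivity), div_le_one (by linarith [hp x])]
        exact hp x
    · rw [tendsto_pi_nhds]
      intro t
      have := hμ t
      exact tendsto_mass lam (μ t)
  · refine ⟨{t | fin lam (μ t)}.indicator fun t => rr lam (μ t), ?_, ?_⟩
    · refine measurable_of_tendsto_metrizable (f := fun (n : ℕ) =>
        {t | fin lam (μ t)}.indicator fun t => ∫ x, rg lam n x ∂(μ t)) (fun n => ?_) ?_
      · exact (hm _ (rg_cont lam n) ⟨(n : ℝ) + 1, rg_bd lam n⟩).indicator hS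
      · rw [tendsto_pi_nhds]
        intro t
        by_cases ht : fin lam (μ t)
        · have := hμ t
          have : t ∈ {t | fin lam (μ t)} := ht
          simp only [Set.indicator_of_mem this]
          exact tendsto_rr lam (μ t) ht
        · have : t ∉ {t | fin lam (μ t)} := ht
          simp only [Set.indicator_of_notMem this]
          exact tendsto_const_nhds
    · intro t ht
      exact Set.indicator_of_mem (show t ∈ {t | fin lam (μ t)} from ht) _
  · refine ⟨fun t => (∫⁻ x, isq lam x ∂(μ t)).toReal, hL.ennreal_toReal, ?_⟩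
    intro t ht
    have := hμ t
    exact DD_eq lam (μ t) ht

end Pool.Agent.Y467.UG
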