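import Pool.Agent.Y782.UG.Stm

set_option autoImplicit false

/-! Project UG, job UG-X2: two mass carrying branches. -/

open MeasureTheory ProbabilityTheory Filter Topology
open scoped ENNReal BigOperators

namespace Pool.Agent.Y467.UG

open Pool.Agent.Y782.UG

variable {Δ : ℕ}

theorem measurable_mk : Measurable fun x : Fin (Δ + 1) × (ℕ → Tr Δ) => mk x.1 x.2 := by
  rw [measurable_pi_iff]
  intro w
  cases w with
  | nil => exact measurable_fst
  | cons a w =>
    have h1 : Measurable fun x : Fin (Δ + 1) × (ℕ → Tr Δ) => x.2 a :=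
      (measurable_pi_apply a).comp measurable_snd
    exact (measurable_pi_apply w).comp h1

theorem x2 : S_X2 := by
  intro Δ p ph _ _ mb hSB m hm
  set E : Set (Tr Δ) := {u | 0 < m u} with hE
  have hEm : MeasurableSet E := measurableSet_lt measurable_const hm
  set K : Set (Fin (Δ + 1)) := {k | 2 ≤ (k : ℕ)} with hK
  set S : Set (ℕ → Tr Δ) := Set.pi (({0, 1} : Finset ℕ) : Set ℕ) (fun _ => E) with hS
  have hp : p K = 1 := by
    have h1 : Kᶜ = {k : Fin (Δ + 1) | (k : ℕ) < 2} := by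
      ext k
      simp [hK]
    have h2 : p Kᶜ = 0 := by rw [h1]; exact hSB.p2
    rw [← prob_compl_eq_zero_iff (Set.toFinite K).measurableSet]
    exact h2
  have hq : Measure.infinitePi (fun _ : ℕ => Q ph) S = (Q ph E) ^ 2 := by
    rw [hS, Measure.infinitePi_pi _ (fun _ _ => hEm)]
    simp [pow_two]
  have hsub : K ×ˢ S ⊆ (fun x : Fin (Δ + 1) × (ℕ → Tr Δ) => mk x.1 x.2) ⁻¹' (Two m) := by
    rintro ⟨k, c⟩ ⟨hk, hc⟩
    have hk' : 2 ≤ (k : ℕ) := hk
    have h0 : c 0 ∈ E := hc 0 (by simp)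
    have h1 : c 1 ∈ E := hc 1 (by simp)
    refine ⟨0, ?_, 1, ?_, by decide, ?_, ?_⟩
    · show 0 < (k : ℕ)
      omega
    · show 1 < (k : ℕ)
      omega
    · exact h0
    · exact h1
  calc (Q ph E) ^ 2 = (p.prod (Measure.infinitePi (fun _ : ℕ => Q ph))) (K ×ˢ S) := by
        rw [Measure.prod_prod, hp, hq, one_mul]
    _ ≤ (p.prod (Measure.infinitePi (fun _ : ℕ => Q ph)))
          ((fun x : Fin (Δ + 1) × (ℕ → Tr Δ) => mk x.1 x.2) ⁻¹' (Two m)) := measure_mono hsub
    _ ≤ Q0 p ph (Two m) := Measure.le_map_apply measurable_mk.aemeasurable _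

end Pool.Agent.Y467.UG
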